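import Pool.Agent.H105R2.NE.Main

/-! MP_a5aec7_al: every minimal non-Engel variety of associative rings is a Cross variety; it is
generated by a finite ring of triangular `2 × 2` matrices over a finite field. -/

namespace Pool.Agent.Results.MP_a5aec7_al.MinNonEngelCross

open Pool.Agent.H105R2.NE

/-- (1) Every minimal non-Engel variety of associative rings is a Cross variety.
(2) Every minimal non-Engel variety is generated by the ring `Tri K α β` of `2 × 2` matrices
generated by `e₁₂` and `diag(α, β)`, for some finite field `K` and some `α ≠ β` in `K`.
(3) A variety is Engel if and only if it contains no ring `Tri K α β` with `K` a finite field and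
`α ≠ β`. -/
theorem result :
    (∀ T : Set RTerm, MinNonEngel T → Cross T) ∧
    (∀ T : Set RTerm, MinNonEngel T →
      ∃ (K : Type) (_ : Field K) (_ : Finite K) (α β : K), α ≠ β ∧
        SubVar T {t | Holds (Tri K α β) t} ∧ SubVar {t | Holds (Tri K α β) t} T) ∧
    (∀ T : Set RTerm, Engel T ↔
      ∀ (K : Type) [Field K] [Finite K] (α β : K), InVar T (Tri K α β) → α = β) :=
  ⟨cross, generated, engel_iff⟩

end Pool.Agent.Results.MP_a5aec7_al.MinNonEngelCross
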